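import Pool.Agent.H74.PP.Defs

/-!
# Zeros of products of Dirichlet `L`-functions under dilations: exact targets
-/

set_option autoImplicit false

open Complex MeasureTheory Set

namespace Pool.Agent.H74.PP

open Pool.Agent.H23.GLH (PrimChar)
open Pool.Agent.H28.MZ (co Mol Bf sn W zq Qf)

/-! ### Part S: the smooth Jensen formula -/

/-- the Laplacian of `θ(x) η(u) K(x + iu)` for `K` holomorphic -/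
noncomputable def Lp (K : ℂ → ℂ) (θ η : ℝ → ℝ) (x u : ℝ) : ℂ :=
  K (x + u * I) * ((deriv (deriv θ) x * η u + θ x * deriv (deriv η) u : ℝ) : ℂ) +
    2 * deriv K (x + u * I) * (((deriv θ x * η u : ℝ) : ℂ) + I * ((θ x * deriv η u : ℝ) : ℂ))

/-- the cutoffs `θ`, `η` live on the rectangle -/
structure Cut (θ η : ℝ → ℝ) (x₁ x₂ u₁ u₂ : ℝ) : Prop where
  hx : x₁ < x₂
  hu : u₁ < u₂
  cθ : ContDiff ℝ 2 θ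
  cη : ContDiff ℝ 2 η
  zθ : ∀ x, x ∉ Ioo x₁ x₂ → θ x = 0
  zη : ∀ u, u ∉ Ioo u₁ u₂ → η u = 0

/-- (SEG) the harmonic part. -/
def T_SEG : Prop :=
  ∀ (G K : ℂ → ℂ) (θ η : ℝ → ℝ) (x₁ x₂ u₁ u₂ : ℝ), Cut θ η x₁ x₂ u₁ u₂ → Differentiable ℂ K →
    (∀ s : ℂ, s.re ∈ Icc x₁ x₂ → s.im ∈ Icc u₁ u₂ → AnalyticAt ℂ G s) →
    ∫ p in Icc x₁ x₂ ×ˢ Icc u₁ u₂, (((G (p.1 + p.2 * I)).re : ℝ) : ℂ) * Lp K θ η p.1 p.2 = 0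

/-- (SEL) the logarithmic kernel. -/
def T_SEL : Prop :=
  ∀ (K : ℂ → ℂ) (θ η : ℝ → ℝ) (x₁ x₂ u₁ u₂ : ℝ) (ρ : ℂ), Cut θ η x₁ x₂ u₁ u₂ →
    Differentiable ℂ K →
    IntegrableOn (fun p : ℝ × ℝ => Real.log ‖(p.1 : ℂ) + p.2 * I - ρ‖)
      (Icc x₁ x₂ ×ˢ Icc u₁ u₂) ∧
    ∫ p in Icc x₁ x₂ ×ˢ Icc u₁ u₂, ((Real.log ‖(p.1 : ℂ) + p.2 * I - ρ‖ : ℝ) : ℂ) *
      Lp K θ η p.1 p.2 = 2 * Real.pi * (((θ ρ.re * η ρ.im : ℝ) : ℂ) * K ρ)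

/-- (SE) the smooth Jensen formula. -/
def T_SE : Prop :=
  ∀ (f K : ℂ → ℂ) (θ η : ℝ → ℝ) (x₁ x₂ u₁ u₂ : ℝ) (Z : Finset ℂ), Cut θ η x₁ x₂ u₁ u₂ →
    Differentiable ℂ K →
    (∀ s : ℂ, s.re ∈ Icc x₁ x₂ → s.im ∈ Icc u₁ u₂ → AnalyticAt ℂ f s ∧ analyticOrderAt f s ≠ ⊤) →
    (∀ s : ℂ, s ∈ Z ↔ s.re ∈ Icc x₁ x₂ ∧ s.im ∈ Icc u₁ u₂ ∧ f s = 0) →
    IntegrableOn (fun p : ℝ × ℝ => Real.log ‖f (p.1 + p.2 * I)‖) (Icc x₁ x₂ ×ˢ Icc u₁ u₂) ∧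
    ∫ p in Icc x₁ x₂ ×ˢ Icc u₁ u₂, ((Real.log ‖f (p.1 + p.2 * I)‖ : ℝ) : ℂ) *
      Lp K θ η p.1 p.2 =
        2 * Real.pi * ∑ ρ ∈ Z, (analyticOrderNatAt f ρ : ℂ) *
          (((θ ρ.re * η ρ.im : ℝ) : ℂ) * K ρ)

/-! ### Part Z: zeros -/

/-- (SYM) the symmetry of the zeros. -/
def T_SYM : Prop :=
  ∀ (π : PrimChar) (T₁ T₂ : ℝ) (f : ℂ → ℂ), 0 < T₁ →
    ∑ ρ ∈ ZF π T₁ T₂, (mu π ρ : ℂ) * f ρ =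
      ∑ ρ ∈ ZF π T₁ T₂, (mu π ρ : ℂ) * f (1 - (starRingEnd ℂ) ρ)

/-- (ORD) from zeros to ordinates. -/
def T_ORD : Prop :=
  ∀ (π : PrimChar) (a τ T₁ T₂ : ℝ) (g : ℝ → ℂ) (Y : Finset ℝ), 0 < a → 0 < a * T₁ + τ →
    (∀ y ∈ Y, T₁ < y ∧ y < T₂) →
    (∀ y, T₁ < y → y < T₂ → mo π (a * y + τ) ≠ 0 → y ∈ Y) →
    ∑ ρ ∈ ZF π (a * T₁ + τ) (a * T₂ + τ), (mu π ρ : ℂ) * g ((ρ.im - τ) / a) =
      ∑ y ∈ Y, (mo π (a * y + τ) : ℂ) * g y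

/-- (LI) the mean of `|log |L||` on rectangles. -/
def T_LI : Prop :=
  ∀ π : PrimChar, ∃ C T₀ : ℝ, 0 < C ∧ ∀ T : ℝ, T₀ ≤ T →
    IntegrableOn (fun p : ℝ × ℝ => Real.log ‖π.L (1 / 2 + (p.1 + p.2 * I))‖)
      (Icc (-2) 2 ×ˢ Icc (T / 2) (4 * T)) ∧
    ∫ p in Icc (-2 : ℝ) 2 ×ˢ Icc (T / 2) (4 * T), |Real.log ‖π.L (1 / 2 + (p.1 + p.2 * I))‖| ≤
      C * T * Real.log T

/-- (CNT) the number of zeros in any window, with the sine weight. -/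
def T_CNT : Prop :=
  ∀ π : PrimChar, ∃ C T₀ : ℝ, 0 < C ∧ ∀ T T₁ T₂ : ℝ, T₀ ≤ T → T ≤ T₁ → T₂ ≤ 10 * T →
    T₁ + T / 10 ≤ T₂ →
    |2 * Real.pi * ∑ ρ ∈ ZF π T₁ T₂, mu π ρ * Real.sin (Real.pi * (ρ.im - T₁) / (T₂ - T₁)) -
        ∫ t in T₁..T₂, Real.log (π.q * t / (2 * Real.pi)) *
          Real.sin (Real.pi * (t - T₁) / (T₂ - T₁))| ≤ C * Real.log T

/-- (MA) the mass of a term of the family. -/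
def T_MA : Prop :=
  ∀ (π : PrimChar) (a : ℝ), 0 < a → ∃ C T₀ : ℝ, 0 < C ∧ ∀ T τ : ℝ, T₀ ≤ T → |τ| ≤ a * T / 8 →
    |∑ ρ ∈ ZF π (a * T + τ) (2 * (a * T) + τ), mu π ρ * sn T ((ρ.im - τ) / a) -
        a * T * Real.log T / Real.pi ^ 2| ≤ C * T

/-- (NT) the total number of zeros. -/
def T_NT : Prop :=
  ∀ π : PrimChar, ∃ C T₀ : ℝ, 0 < C ∧ ∀ T : ℝ, T₀ ≤ T →
    ∑ ρ ∈ ZF π T (2 * T), mu π ρ ≤ C * T * Real.log T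

/-- (NU) the number of zeros in short windows. -/
def T_NU : Prop :=
  ∀ π : PrimChar, ∃ C T₀ : ℝ, 0 < C ∧ ∀ T : ℝ, T₀ ≤ T →
    ∑ ρ ∈ ZF π T (T + 1), mu π ρ ≤ C * Real.log T

/-- (CW) the mean of `L B` with the Gamma weight. -/
def T_CW : Prop :=
  ∀ (π : PrimChar) (N : ℕ), 1 ≤ N → ∃ C : ℝ, 0 < C ∧ ∀ (σ u : ℝ) (b : ℕ → ℝ) (Y : ℕ),
    1 / 2 < σ → σ ≤ 3 / 4 → 1 ≤ u → Mol π.q b → 1 ≤ Y →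
    IntegrableOn (fun t : ℝ => ((W N u t : ℝ) : ℂ) * (π.L (σ + t * I) * Bf π b Y (σ + t * I)))
      (Ioi 0) ∧
    ‖(∫ t in Ioi (0 : ℝ), ((W N u t : ℝ) : ℂ) * (π.L (σ + t * I) * Bf π b Y (σ + t * I))) - u‖ ≤
      C * Y

/-- (DM) the mean square of `L B - 1`. -/
def T_DM : Prop :=
  ∀ π : PrimChar, ∃ C c σ₁ T₀ : ℝ, 0 < C ∧ 0 < c ∧ 1 / 2 < σ₁ ∧ σ₁ ≤ 3 / 4 ∧ ∀ T σ : ℝ, T₀ ≤ T →
    1 / 2 + C / Real.log T ≤ σ → σ ≤ σ₁ → ∃ b : ℕ → ℝ, Mol π.q b ∧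
      (∫ t in (T / 2)..(4 * T), ‖π.L (σ + t * I) * Bf π b ⌊T ^ (1 / 8 : ℝ)⌋₊ (σ + t * I) - 1‖ ^ 2) ≤
        C * T ^ (1 - c * (σ - 1 / 2))

/-- (JL) Littlewood's lemma with a pointwise bound on the left side. -/
def T_JL : Prop :=
  ∀ (f : ℂ → ℂ) (a b T₁ T₂ M e G : ℝ) (g : ℝ → ℝ) (S : Finset ℂ) (m : ℂ → ℕ), a < b → 1 ≤ T₁ →
    T₁ + 1 ≤ T₂ → 1 ≤ M → 0 ≤ e → e ≤ 1 / 4 →
    (∀ s : ℂ, T₁ / 2 < s.im → DifferentiableAt ℂ f s) →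
    (∀ s : ℂ, a - 1 ≤ s.re → s.re ≤ b → T₁ ≤ s.im → s.im ≤ T₂ → ‖f s‖ ≤ M) →
    (∀ s : ℂ, b - 1 ≤ s.re → s.re ≤ b + 1 → T₁ / 2 ≤ s.im → s.im ≤ 2 * T₂ → ‖f s - 1‖ ≤ e) →
    Continuous g → (∀ t, 0 ≤ g t) → (∀ t ∈ Icc T₁ T₂, ‖f (a + t * I)‖ ≤ Real.exp (g t)) →
    (∫ t in T₁..T₂, g t * Real.sin (Real.pi * (t - T₁) / (T₂ - T₁))) ≤ G →
    (∀ ρ ∈ S, T₁ < ρ.im ∧ ρ.im < T₂ ∧ ρ.re < b ∧ m ρ ≤ analyticOrderNatAt f ρ) →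
    2 * Real.pi * ∑ ρ ∈ S, (m ρ : ℝ) * max 0 (ρ.re - a) *
        Real.sin (Real.pi * (ρ.im - T₁) / (T₂ - T₁)) ≤
      G + 2 * (b - a) * Real.sinh (Real.pi * (b - a) / (T₂ - T₁)) * Real.log M +
        4 * (T₂ - T₁ + 2) * (T₂ - T₁) * Real.cosh (Real.pi * (b - a) / (T₂ - T₁)) * e

/-- (SD) Selberg's density theorem. -/
def T_SD : Prop :=
  ∀ π : PrimChar, ∃ C c T₀ : ℝ, 0 < C ∧ 0 < c ∧ ∀ T h : ℝ, T₀ ≤ T → 0 ≤ h → h ≤ 1 / 2 →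
    ∑ ρ ∈ (ZF π T (2 * T)).filter (fun ρ => h ≤ |ρ.re - 1 / 2|), mu π ρ ≤
      C * T ^ (1 - c * h) * Real.log T

/-- (SO) sums over zeros off the line. -/
def T_SO : Prop :=
  ∀ π : PrimChar, ∃ C c : ℝ, 0 < C ∧ 0 < c ∧ ∀ δ : ℝ, 0 < δ → δ ≤ c → ∃ X₀ : ℝ, ∀ X τ l : ℝ,
    X₀ ≤ X → |τ| ≤ X / 8 → 0 ≤ l → l ≤ δ * Real.log X →
    ∑ ρ ∈ ZF π (X + τ) (2 * X + τ), mu π ρ * ((l * |ρ.re - 1 / 2|) ^ 2 *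
      Real.exp (l * |ρ.re - 1 / 2|)) ≤ C * δ ^ 2 * X * Real.log X

/-! ### Part K: the kernel -/

/-- (KB) bounds for the kernel. -/
def T_KB : Prop :=
  Differentiable ℂ KK ∧ ∀ m : ℕ, ∃ C : ℝ, 0 < C ∧ ∀ z : ℂ,
    ‖KK z‖ * (1 + ‖z‖) ^ m ≤ C * Real.exp (max z.re (z.re / 4)) ∧
    ‖deriv KK z‖ * (1 + ‖z‖) ^ m ≤ C * Real.exp (max z.re (z.re / 4)) ∧
    ‖deriv (deriv KK) z‖ * (1 + ‖z‖) ^ m ≤ C * Real.exp (max z.re (z.re / 4))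

/-- (KF) Fourier inversion for the kernel. -/
def T_KF : Prop :=
  ∀ l x t y : ℝ, 0 < l →
    Integrable (fun v : ℝ => KK (l * (x + v * I - t * I)) * cexp (-(v * y) * I)) ∧
    Integrable (fun v : ℝ => l * deriv KK (l * (x + v * I - t * I)) * cexp (-(v * y) * I)) ∧
    ∫ v : ℝ, KK (l * (x + v * I - t * I)) * cexp (-(v * y) * I) =
      2 * Real.pi / l * kk (y / l) * cexp (x * y) * cexp (-(t * y) * I) ∧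
    ∫ v : ℝ, l * deriv KK (l * (x + v * I - t * I)) * cexp (-(v * y) * I) =
      2 * Real.pi / l * y * kk (y / l) * cexp (x * y) * cexp (-(t * y) * I)

/-- (OFF) the mean of the kernel and of its symmetric second difference. -/
def T_OFF : Prop :=
  ∃ C : ℝ, 0 < C ∧ Integrable (fun v : ℝ => KK (v * I)) ∧ (∫ v : ℝ, ‖KK (v * I)‖) ≤ C ∧
    ∀ h : ℝ, 0 ≤ h →
      Integrable (fun v : ℝ => KK (h + v * I) + KK (-h + v * I) - 2 * KK (v * I)) ∧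
      ∫ v : ℝ, ‖KK (h + v * I) + KK (-h + v * I) - 2 * KK (v * I)‖ ≤ C * (h ^ 2 * Real.exp h)

/-! ### Part E: the explicit formula -/

/-- the kernel of the explicit formula -/
noncomputable def Kf (l t : ℝ) (z : ℂ) : ℂ := KK (l * (z - t * I))

/-- the vertical cutoff of the explicit formula -/
noncomputable def ef (X τ u : ℝ) : ℝ := et ((u - τ) / X)

/-- (LS) the logarithm of `|L|` as a Dirichlet series. -/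
def T_LS : Prop :=
  ∀ (π : PrimChar) (s : ℂ), 1 < s.re →
    Summable (fun n : ℕ => ‖((ArithmeticFunction.vonMangoldt n / Real.log n : ℝ) : ℂ) * co π n *
      (n : ℂ) ^ (-s)‖) ∧
    Real.log ‖π.L s‖ = (∑' n : ℕ, ((ArithmeticFunction.vonMangoldt n / Real.log n : ℝ) : ℂ) *
      co π n * (n : ℂ) ^ (-s)).re

/-- (ER) the right side of the rectangle. -/
def T_ER : Prop :=
  ∀ π : PrimChar, ∃ C X₀ : ℝ, 0 < C ∧ ∀ X l τ t : ℝ, X₀ ≤ X → 1 ≤ l → l ≤ Real.log X →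
    |τ| ≤ X / 8 → 5 * X / 4 + τ ≤ t → t ≤ 7 * X / 4 + τ →
    ‖(∫ p in Icc (1 : ℝ) 2 ×ˢ Icc (X + τ) (2 * X + τ),
        ((Real.log ‖π.L (1 / 2 + (p.1 + p.2 * I))‖ : ℝ) : ℂ) *
          Lp (Kf l t) th (ef X τ) p.1 p.2) + 2 * Real.pi * Pr π l t‖ ≤ C / X

/-- (EL) the rest of the rectangle. -/
def T_EL : Prop :=
  ∀ π : PrimChar, ∃ C X₀ : ℝ, 0 < C ∧ ∀ X l τ : ℝ, X₀ ≤ X → 1 ≤ l → l ≤ Real.log X →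
    |τ| ≤ X / 8 →
    IntervalIntegrable (fun t => ‖∫ p in Icc (-2 : ℝ) 1 ×ˢ Icc (X + τ) (2 * X + τ),
        ((Real.log ‖π.L (1 / 2 + (p.1 + p.2 * I))‖ : ℝ) : ℂ) *
          Lp (Kf l t) th (ef X τ) p.1 p.2‖) volume (5 * X / 4 + τ) (7 * X / 4 + τ) ∧
    ∫ t in (5 * X / 4 + τ)..(7 * X / 4 + τ),
      ‖∫ p in Icc (-2 : ℝ) 1 ×ˢ Icc (X + τ) (2 * X + τ),
        ((Real.log ‖π.L (1 / 2 + (p.1 + p.2 * I))‖ : ℝ) : ℂ) *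
          Lp (Kf l t) th (ef X τ) p.1 p.2‖ ≤ C * (X * Real.log X * Real.exp (-(l / 4)) + 1)

/-- (EF) the explicit formula, in the mean. -/
def T_EF : Prop :=
  ∀ π : PrimChar, ∃ C X₀ : ℝ, 0 < C ∧ ∀ X l τ : ℝ, X₀ ≤ X → 1 ≤ l → l ≤ Real.log X →
    |τ| ≤ X / 8 →
    ∫ t in (5 * X / 4 + τ)..(7 * X / 4 + τ),
      ‖(∑ ρ ∈ ZF π (X + τ) (2 * X + τ), (mu π ρ * et ((ρ.im - τ) / X) : ℝ) *
          KK (l * (ρ - 1 / 2 - t * I))) + Pr π l t‖ ≤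
        C * (X * Real.log X * Real.exp (-(l / 4)) + 1)

/-- (ZS) the zero side. -/
def T_ZS : Prop :=
  ∃ C : ℝ, 0 < C ∧ ∀ (ι : Type) [Fintype ι] (F : Fam ι) (τ : ι → ℝ) (T D : ℝ), 0 < T → 0 < D →
    (∀ i, |τ i| ≤ F.a i * T / 8) → ∃ Y : Finset ℝ,
      (∀ y, y ∈ Y ↔ T < y ∧ y < 2 * T ∧ ∃ i, mo (F.π i) (F.a i * y + τ i) ≠ 0) ∧
      ∫ t in (5 * T / 4)..(7 * T / 4), ‖F.D τ D T t‖ ≤
        C / D * (∑ y ∈ Y, et (y / T) * |F.tot τ y| +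
          ∑ i, ∑ ρ ∈ ZF (F.π i) (F.a i * T + τ i) (2 * (F.a i * T) + τ i),
            mu (F.π i) ρ * ((D / F.a i * |ρ.re - 1 / 2|) ^ 2 *
              Real.exp (D / F.a i * |ρ.re - 1 / 2|)))

/-! ### Part P: the prime side -/

/-- the primes in `Pr` -/
noncomputable def Pp (π : PrimChar) (l t : ℝ) : ℂ :=
  (1 / l : ℝ) * ∑ p ∈ (Finset.Icc 1 ⌊Real.exp l⌋₊).filter Nat.Prime,
    ((Real.log p * (p : ℝ) ^ (-(1 / 2 : ℝ)) * kk (Real.log p / l) : ℝ) : ℂ) *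
      co π p * (p : ℂ) ^ (-(t * I))

/-- (MV) mean values of sums with separated frequencies. -/
def T_MV : Prop :=
  ∀ (s : Finset ℕ) (c : ℕ → ℂ) (φ : ℕ → ℝ) (g T₁ T₂ : ℝ), 0 < g → T₁ ≤ T₂ →
    (∀ m ∈ s, ∀ n ∈ s, m ≠ n → g ≤ |φ m - φ n|) →
    |(∫ t in T₁..T₂, ‖∑ n ∈ s, c n * cexp (-(φ n * t) * I)‖ ^ 2) -
        (T₂ - T₁) * ∑ n ∈ s, ‖c n‖ ^ 2| ≤ 2 / g * (∑ n ∈ s, ‖c n‖) ^ 2

/-- (PR) prime powers. -/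
def T_PR : Prop :=
  (∃ C : ℝ, 0 < C ∧ ∀ (π : PrimChar) (l t : ℝ), 1 ≤ l → ‖Pr π l t - Pp π l t‖ ≤ C) ∧
  ∀ (π : PrimChar) (a δ ε : ℝ), 0 < a → 0 < δ → δ ≤ a / 8 → 0 < ε → ∃ T₀ : ℝ, ∀ T τ : ℝ,
    T₀ ≤ T →
    ∫ t in T..(2 * T), ‖Pr π (δ * Real.log T / a) (a * t + τ) -
      Pp π (δ * Real.log T / a) (a * t + τ)‖ ^ 2 ≤ ε * T

/-- (P4) fourth moment. -/
def T_P4 : Prop :=
  ∃ C : ℝ, 0 < C ∧ ∀ (π : PrimChar) (a δ : ℝ), 0 < a → 0 < δ → δ ≤ a / 16 → ∃ T₀ : ℝ,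
    ∀ T τ : ℝ, T₀ ≤ T →
    ∫ t in T..(2 * T), ‖Pr π (δ * Real.log T / a) (a * t + τ)‖ ^ 4 ≤ C * T

/-- (PD) the diagonal term. -/
def T_PD : Prop :=
  ∀ π : PrimChar, ∃ l₀ : ℝ, ∀ l : ℝ, l₀ ≤ l → 1 / 10 ≤ (Qr π π l 0).re ∧
    ∀ (π' π'' : PrimChar) (u : ℝ), ‖Qr π' π'' l u‖ ≤ 2

/-- (PX) different dilations. -/
def T_PX : Prop :=
  ∀ (π π' : PrimChar) (a a' δ ε : ℝ), 0 < a → 0 < a' → a ≠ a' → 0 < δ → δ ≤ a / 16 →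
    δ ≤ a' / 16 → 0 < ε → ∃ T₀ : ℝ, ∀ T τ τ' : ℝ, T₀ ≤ T →
    ‖∫ t in (5 * T / 4)..(7 * T / 4), Pp π (δ * Real.log T / a) (a * t + τ) *
      (starRingEnd ℂ) (Pp π' (δ * Real.log T / a') (a' * t + τ'))‖ ≤ ε * T

/-- (PE) equal dilations. -/
def T_PE : Prop :=
  ∀ (π π' : PrimChar) (a δ ε : ℝ), 0 < a → 0 < δ → δ ≤ a / 16 → 0 < ε → ∃ T₀ : ℝ,
    ∀ T τ τ' : ℝ, T₀ ≤ T →
    ‖(∫ t in (5 * T / 4)..(7 * T / 4), Pp π (δ * Real.log T / a) (a * t + τ) *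
      (starRingEnd ℂ) (Pp π' (δ * Real.log T / a) (a * t + τ'))) -
        T / 2 * Qr π π' (δ * Real.log T / a) (τ - τ')‖ ≤ ε * T

/-- (PL) lower bound for the prime side. -/
def T_PL : Prop :=
  ∀ (ι : Type) [Fintype ι] [Nonempty ι] (F : Fam ι) (δ : ℝ), 0 < δ → (∀ i, δ ≤ F.a i / 16) →
    ∃ T₀ : ℝ, ∀ (T : ℝ) (τ : ι → ℝ), T₀ ≤ T → F.Orth τ (δ * Real.log T) →
    T / 40 ≤ ∫ t in (5 * T / 4)..(7 * T / 4), ‖F.P τ (δ * Real.log T) t‖ ^ 2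

/-! ### Part C: the core -/

/-- (CORE) positive proportion for signed families. -/
def T_CORE : Prop :=
  ∀ (S : Set PrimChar) (n : ℕ), S.Finite → ∃ δ₀ δ c : ℝ, 0 < δ₀ ∧ 0 < δ ∧ 0 < c ∧
    ∀ (ι : Type) [Fintype ι] [Nonempty ι] (F : Fam ι), Fintype.card ι ≤ n →
      (∀ i, F.π i ∈ S ∧ 1 / (n : ℝ) ≤ F.a i ∧ F.a i ≤ n) → ∑ i, F.ε i * F.a i ≤ δ →
      ∃ T₀ : ℝ, ∀ (T : ℝ) (τ : ι → ℝ), T₀ ≤ T → (∀ i, |τ i| ≤ F.a i * T / 8) →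
        F.Orth τ (δ₀ * Real.log T) → ∃ Z : Finset ℝ,
          (∀ y ∈ Z, T < y ∧ y < 2 * T ∧ F.tot τ y < 0) ∧
          c * (T * Real.log T) ≤ ∑ y ∈ Z, -F.tot τ y

/-! ### Part B: fixed families -/

/-- (OB) orthogonality of characters on the line `Re s = 1`. -/
def T_OB : Prop :=
  ∀ (π π' : PrimChar) (u : ℝ), π ≠ π' ∨ u ≠ 0 → ∃ C : ℝ, ∀ N : ℕ,
    ‖∑ p ∈ (Finset.Icc 1 N).filter Nat.Prime,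
      ((Real.log p / p : ℝ) : ℂ) * (co π p * (starRingEnd ℂ) (co π' p)) *
        (p : ℂ) ^ (-(u * I))‖ ≤ C

/-- (QZ) different terms with the same dilation. -/
def T_QZ : Prop :=
  ∀ (π π' : PrimChar) (u ε : ℝ), π ≠ π' ∨ u ≠ 0 → 0 < ε → ∃ l₀ : ℝ, ∀ l : ℝ, l₀ ≤ l →
    ‖Qr π π' l u‖ ≤ ε

/-- (TB) positive proportion for products. -/
def T_TB : Prop :=
  ∀ (S : Set PrimChar) (n : ℕ), S.Finite → ∃ δ c : ℝ, 0 < δ ∧ 0 < c ∧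
    ∀ (k m : ℕ) (ψ : Fin k → PrimChar) (a τ : Fin k → ℝ) (χ : Fin m → PrimChar)
      (b σ : Fin m → ℝ), 0 < k + m → k + m ≤ n →
      (∀ i, ψ i ∈ S ∧ 1 / (n : ℝ) ≤ a i ∧ a i ≤ n) →
      (∀ j, χ j ∈ S ∧ 1 / (n : ℝ) ≤ b j ∧ b j ≤ n) →
      (∀ i j, ¬ (ψ i = χ j ∧ a i = b j ∧ τ i = σ j)) →
      (∑ i, a i) ≤ (∑ j, b j) + δ →
      ∃ T₀ : ℝ, ∀ T : ℝ, T₀ ≤ T → ∃ Z : Finset ℝ,
        (∀ y ∈ Z, T < y ∧ y < 2 * T ∧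
          ∑ i, mo (ψ i) (a i * y + τ i) < ∑ j, mo (χ j) (b j * y + σ j)) ∧
        c * (T * Real.log T) ≤
          ∑ y ∈ Z, ((∑ j, mo (χ j) (b j * y + σ j) : ℕ) - (∑ i, mo (ψ i) (a i * y + τ i) : ℕ) : ℝ)

/-! ### Part A: sums of zeros -/

/-- (AQ) the exceptional zeros in the mean value over the zeros. -/
def T_AQ : Prop :=
  ∀ (π₁ π π' : PrimChar) (α δ ε η : ℝ), α ≠ 0 → 0 < δ → δ ≤ 1 / 2 → 0 < ε → 0 < η → ∃ T₀ : ℝ,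
    ∀ T τ : ℝ, T₀ ≤ T →
    ∑ ρ ∈ (ZF π₁ (η * T) (2 * (η * T))).filter
        (fun ρ => ε < ‖Qr π π' (δ * Real.log T) (α * ρ.im + τ)‖), mu π₁ ρ ≤
      ε * (T * Real.log T)

/-- (TA) sums of two zeros. -/
def T_TA : Prop :=
  ∀ (χ₁ χ₂ χ₃ : PrimChar) (α : ℝ), α ≠ 0 → ∃ c T₀ : ℝ, 0 < c ∧ ∀ T : ℝ, T₀ ≤ T →
    ∃ Z : Finset (ℝ × ℝ),
      (∀ y ∈ Z, 0 < y.1 ∧ y.1 < T ∧ 0 < y.2 ∧ y.2 < T ∧ mo χ₃ (α * y.1 + y.2) < mo χ₂ y.2) ∧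
      c * (T * Real.log T) ^ 2 ≤
        ∑ y ∈ Z, (mo χ₁ y.1 : ℝ) * ((mo χ₂ y.2 : ℝ) - mo χ₃ (α * y.1 + y.2))

end Pool.Agent.H74.PP
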