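import Mathlib
import Pool.Agent.H28.MZ.Targets

/-!
# Zeros of products of Dirichlet `L`-functions under dilations: definitions
-/

set_option autoImplicit false

open Complex MeasureTheory Set

namespace Pool.Agent.H74.PP

open Pool.Agent.H23.GLH (PrimChar)
open Pool.Agent.H28.MZ (co)

/-- the zeros of `L(s, π)` with `0 < Re s < 1` and `T₁ < Im s < T₂` -/
def zset (π : PrimChar) (T₁ T₂ : ℝ) : Set ℂ :=
  {ρ | 0 < ρ.re ∧ ρ.re < 1 ∧ T₁ < ρ.im ∧ ρ.im < T₂ ∧ π.L ρ = 0}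

open scoped Classical in
/-- the same zeros, as a finite set (see `mem_ZF` in `Basic`) -/
noncomputable def ZF (π : PrimChar) (T₁ T₂ : ℝ) : Finset ℂ :=
  if h : (zset π T₁ T₂).Finite then h.toFinset else ∅

/-- the multiplicity of the zero `ρ` -/
noncomputable def mu (π : PrimChar) (ρ : ℂ) : ℝ := (analyticOrderNatAt π.L ρ : ℝ)

/-- the number of zeros of `L(s, π)` with `0 < Re s < 1` and `Im s = y`, with multiplicity -/
noncomputable def mo (π : PrimChar) (y : ℝ) : ℕ :=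
  ∑ᶠ ρ ∈ {ρ : ℂ | 0 < ρ.re ∧ ρ.re < 1 ∧ ρ.im = y ∧ π.L ρ = 0}, analyticOrderNatAt π.L ρ

/-! ### The kernel -/

/-- a smooth bump: `0` outside `(1/4, 1)`, `1` on `[1/2, 3/4]`, values in `[0, 1]` -/
noncomputable def kk (ξ : ℝ) : ℝ :=
  Real.smoothTransition (4 * ξ - 1) * Real.smoothTransition (4 - 4 * ξ)

/-- its Laplace transform, an entire function -/
noncomputable def KK (z : ℂ) : ℂ := ∫ ξ in (1 / 4 : ℝ)..1, (kk ξ : ℂ) * cexp (ξ * z)

/-- the horizontal cutoff: `1` on `[-1, 1]`, `0` outside `(-2, 2)` -/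
noncomputable def th (x : ℝ) : ℝ := Real.smoothTransition (2 - x) * Real.smoothTransition (2 + x)

/-- the vertical cutoff: `1` on `[9/8, 15/8]`, `0` outside `(1, 2)` -/
noncomputable def et (u : ℝ) : ℝ :=
  Real.smoothTransition (8 * (u - 1)) * Real.smoothTransition (8 * (2 - u))

/-! ### The prime side -/

/-- `(1/l) ∑ Λ(n) χ(n) n^{-1/2 - it} k(log n / l)` -/
noncomputable def Pr (π : PrimChar) (l t : ℝ) : ℂ :=
  (1 / l : ℝ) * ∑ n ∈ Finset.Icc 1 ⌊Real.exp l⌋₊,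
    ((ArithmeticFunction.vonMangoldt n * (n : ℝ) ^ (-(1 / 2 : ℝ)) * kk (Real.log n / l) : ℝ) : ℂ) *
      co π n * (n : ℂ) ^ (-(t * I))

/-- `(1/l²) ∑_p (log² p / p) k(log p / l)² χ(p) conj χ'(p) p^{-iu}` -/
noncomputable def Qr (π π' : PrimChar) (l u : ℝ) : ℂ :=
  (1 / l ^ 2 : ℝ) * ∑ p ∈ (Finset.Icc 1 ⌊Real.exp l⌋₊).filter Nat.Prime,
    ((Real.log p ^ 2 / p * kk (Real.log p / l) ^ 2 : ℝ) : ℂ) *
      (co π p * (starRingEnd ℂ) (co π' p)) * (p : ℂ) ^ (-(u * I))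

/-! ### Signed families -/

/-- A signed family of functions `L(1/2 + a (s - 1/2) + iτ, π)` (without the shifts `τ`). -/
structure Fam (ι : Type) where
  /-- the characters -/
  π : ι → PrimChar
  /-- the dilations -/
  a : ι → ℝ
  /-- the signs -/
  ε : ι → ℝ
  /-- the dilations are positive -/
  a_pos : ∀ i, 0 < a i
  /-- the signs are signs -/
  ε_eq : ∀ i, ε i = 1 ∨ ε i = -1

/-- the signed number of zeros at the ordinate `y` -/
noncomputable def Fam.tot {ι : Type} [Fintype ι] (F : Fam ι) (τ : ι → ℝ) (y : ℝ) : ℝ :=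
  ∑ i, F.ε i * (mo (F.π i) (F.a i * y + τ i) : ℝ)

/-- the signed prime side at the scale `D = δ₀ log T` -/
noncomputable def Fam.P {ι : Type} [Fintype ι] (F : Fam ι) (τ : ι → ℝ) (D t : ℝ) : ℂ :=
  ∑ i, (F.ε i : ℂ) * Pr (F.π i) (D / F.a i) (F.a i * t + τ i)

/-- near orthogonality of the terms with the same dilation -/
def Fam.Orth {ι : Type} [Fintype ι] (F : Fam ι) (τ : ι → ℝ) (D : ℝ) : Prop :=
  ∀ i j, i ≠ j → F.a i = F.a j →
    -(1 / (40 * (Fintype.card ι : ℝ) ^ 2)) ≤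
      F.ε i * F.ε j * (Qr (F.π i) (F.π j) (D / F.a i) (τ i - τ j)).re

/-- the zero side at the point `t` -/
noncomputable def Fam.D {ι : Type} [Fintype ι] (F : Fam ι) (τ : ι → ℝ) (D T t : ℝ) : ℂ :=
  ∑ i, (F.ε i : ℂ) * ∑ ρ ∈ ZF (F.π i) (F.a i * T + τ i) (2 * (F.a i * T) + τ i),
    (mu (F.π i) ρ * et ((ρ.im - τ i) / (F.a i * T)) : ℝ) *
      KK ((D / F.a i : ℝ) * (ρ - 1 / 2 - (F.a i * t + τ i : ℝ) * I))

end Pool.Agent.H74.PP
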