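import Pool.Agent.H23.GLH.Defs

/-!
# The number of zeros of a Dirichlet L-function at an ordinate
-/

set_option autoImplicit false

namespace Pool.Agent.H74.PP

open Pool.Agent.H23.GLH (PrimChar)

/-- the number of zeros `s` of `L(s, π)` with `0 < Re s < 1` and `Im s = y`, with multiplicity -/
noncomputable def ordMult (π : PrimChar) (y : ℝ) : ℕ :=
  ∑ᶠ ρ ∈ {ρ : ℂ | 0 < ρ.re ∧ ρ.re < 1 ∧ ρ.im = y ∧ π.L ρ = 0}, analyticOrderNatAt π.L ρ

end Pool.Agent.H74.PP
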